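import Pool.Agent.H92.EM.TC
import Pool.Agent.H1.EHD.RZ

/-!
Board emd_modules (MP_75a732_an), row MRZ: the mean over the group fixing the hyperplanes.
-/

set_option autoImplicit false

open scoped BigOperators ComplexConjugate ContDiff ComplexOrder
open MeasureTheory Pool.Agent.H92.EQ Pool.Agent.H92.EM

namespace Pool.Agent.H29.EM

theorem th0_pos (k : ℕ) : 0 < th0 k := by
  unfold th0
  positivity

/-- the law of the matrices -/
theorem bth_facts (hMBU : T_MBU) (k : ℕ) (θ : ℝ) (hθ : 0 < θ) :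
    Continuous (bth (k := k) θ) ∧ (∀ X, 0 ≤ bth (k := k) θ X) ∧
    Integrable (bth (k := k) θ) ∧ (∫ X, bth (k := k) θ X) = 1 ∧
    ∀ X : Fin (k + 1) → Fin (k + 1) → ℂ, bth θ X ≠ 0 → ∀ i j, ‖X i j‖ < θ := by
  obtain ⟨C, _, h1, _⟩ := hMBU
  obtain ⟨hs, hn, _, hv, hi, h1'⟩ := h1 θ hθ
  refine ⟨?_, ?_, ?_, ?_, ?_⟩
  · unfold bth
    refine continuous_finsetProd _ fun i _ => continuous_finsetProd _ fun j _ => ?_
    exact hs.continuous.comp ((continuous_apply j).comp (continuous_apply i))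
  · intro X
    exact Finset.prod_nonneg fun i _ => Finset.prod_nonneg fun j _ => hn _
  · have h2 : Integrable (fun x : Fin (k + 1) → ℂ => ∏ j, bs θ (x j)) :=
      Integrable.fintype_prod (f := fun _ => bs θ) fun _ => hi
    exact Integrable.fintype_prod (f := fun _ => fun x : Fin (k + 1) → ℂ => ∏ j, bs θ (x j))
      fun _ => h2
  · unfold bth
    have h2 : (∫ x : Fin (k + 1) → ℂ, ∏ j, bs θ (x j)) = 1 := by
      rw [integral_fintype_prod_volume_eq_prod (fun _ => bs θ)]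
      simp [h1']
    rw [integral_fintype_prod_volume_eq_prod
      (fun _ => fun x : Fin (k + 1) → ℂ => ∏ j, bs θ (x j))]
    simp [h2]
  · intro X hX i j
    by_contra hc
    apply hX
    unfold bth
    refine Finset.prod_eq_zero (Finset.mem_univ i) ?_
    exact Finset.prod_eq_zero (Finset.mem_univ j) (hv _ (not_lt.1 hc))

/-- matrices near the identity are invertible -/
theorem det_near {k : ℕ} (A : Matrix (Fin (k + 1)) (Fin (k + 1)) ℂ)
    (h : ∀ i j, ‖A i j - (1 : Matrix (Fin (k + 1)) (Fin (k + 1)) ℂ) i j‖ ≤ th0 k) :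
    A.det ≠ 0 := by
  refine det_ne_zero_of_sum_row_lt_diag fun i => ?_
  have hk : (0 : ℝ) < k + 1 := by positivity
  have h1 : ∑ j ∈ Finset.univ.erase i, ‖A i j‖ ≤ ∑ j ∈ Finset.univ.erase i, th0 k := by
    refine Finset.sum_le_sum fun j hj => ?_
    have h2 := h i j
    rw [Matrix.one_apply_ne (Finset.ne_of_mem_erase hj).symm, sub_zero] at h2
    exact h2
  have h2 : ∑ j ∈ Finset.univ.erase i, th0 k ≤ 1 / 8 := by
    rw [Finset.sum_const, Finset.card_erase_of_mem (Finset.mem_univ i), Finset.card_univ,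
      Fintype.card_fin, nsmul_eq_mul, Nat.add_sub_cancel]
    unfold th0
    rw [mul_one_div, div_le_div_iff₀ (by positivity) (by norm_num)]
    linarith
  have h3 := h i i
  rw [Matrix.one_apply_eq] at h3
  have h4 : th0 k ≤ 1 / 8 := by
    unfold th0
    rw [div_le_div_iff₀ (by positivity) (by norm_num)]
    have : (0 : ℝ) ≤ k := Nat.cast_nonneg k
    linarith
  have h5 : (1 : ℝ) ≤ ‖A i i‖ + ‖A i i - 1‖ := by
    have h6 := norm_sub_le (A i i) (A i i - 1)
    rw [sub_sub_cancel, norm_one] at h6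
    exact h6
  linarith

theorem near_one {k : ℕ} (X : Fin (k + 1) → Fin (k + 1) → ℂ) (h : ∀ i j, ‖X i j‖ < th0 k) :
    (1 + Matrix.of X : Matrix (Fin (k + 1)) (Fin (k + 1)) ℂ).det ≠ 0 := by
  refine det_near _ fun i j => ?_
  rw [Matrix.add_apply, add_sub_cancel_left]
  exact (h i j).le

theorem near_msk {k : ℕ} (m : ℕ) (X : Fin (k + 1) → Fin (k + 1) → ℂ)
    (h : ∀ i j, ‖X i j‖ < th0 k) : (mX m X).det ≠ 0 := by
  refine det_near _ fun i j => ?_
  unfold mX msk
  by_cases hc : (i : ℕ) < m ∧ j ≠ i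
  · rw [if_pos hc, Matrix.one_apply_ne hc.2.symm, sub_zero, norm_zero]
    exact (th0_pos k).le
  · rw [if_neg hc, Matrix.add_apply, add_sub_cancel_left]
    exact (h i j).le

theorem sw_zero {k : ℕ} (X : Fin (k + 1) → Fin (k + 1) → ℂ) : sw 0 X = 0 := by
  funext i j
  simp [sw]

theorem sw_all {k : ℕ} (X : Fin (k + 1) → Fin (k + 1) → ℂ) :
    sw ((k + 1) * (k + 1)) X = X := by
  funext i j
  unfold sw
  rw [if_pos]
  have h1 : (i : ℕ) * (k + 1) ≤ k * (k + 1) := Nat.mul_le_mul_right _ (by omega)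
  have h2 : (k + 1) * (k + 1) = k * (k + 1) + (k + 1) := by ring
  omega

/-- composition with a linear map -/
theorem am_mul (hD8 : T_D8) (hD13 : T_D13) {k p q : ℕ} (f : (Fin (k + 1) → ℂ) → ℝ)
    (Φ : Fin (k + 1) → MvPolynomial (Fin (k + 1)) ℂ) (S : Form (Fin (k + 1)) p)
    (u : Fin q → (Fin (k + 1) → ℂ) → ℝ) (A B : Matrix (Fin (k + 1)) (Fin (k + 1)) ℂ) :
    am f Φ S u (A * B) = am f Φ (pull (lin A) S) u B := by
  unfold am
  have h : pull (cmp (lin (A * B)) Φ) S = pull (cmp (lin B) Φ) (pull (lin A) S) := by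
    funext z
    rw [(hD8 (k + 1) p (lin (A * B)) Φ S z).2.2, (hD8 (k + 1) p (lin B) Φ _ z).2.2]
    have h2 : pull (lin (A * B)) S = pull (lin B) (pull (lin A) S) := by
      funext y
      exact (hD13 (k + 1) A B y).2.2.2 p S
    rw [h2]
  rw [h]

theorem lin_form (hD5 : T_D5) (hD13 : T_D13) (hP5 : T_P5) {k p q : ℕ} (hpq : p + q = k)
    (S : Form (Fin (k + 1)) p) (hS : ProjForm S) (A : Matrix (Fin (k + 1)) (Fin (k + 1)) ℂ)
    (hA : A.det ≠ 0) : ProjForm (pull (lin A) S) ∧ mass q (pull (lin A) S) = mass q S := by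
  have h1 : IsH 1 (lin A) := (hD13 (k + 1) A A 0).2.2.1 hA
  refine ⟨hD5 (k + 1) p 1 (lin A) S le_rfl h1 hS, ?_⟩
  have h2 := (hP5 (k + 1) p q 1 S (by omega) hS).1 (lin A) le_rfl h1
  rw [h2]
  simp

/-- an average -/
theorem avg {α : Type*} [MeasurableSpace α] {μ : Measure α} (b G : α → ℝ) (P K : ℝ)
    (hb0 : ∀ x, 0 ≤ b x) (hbi : Integrable b μ) (hb1 : ∫ x, b x ∂μ = 1)
    (hi : Integrable (fun x => b x * G x) μ) (h : ∀ x, b x ≠ 0 → |G x - P| ≤ K) :
    |(∫ x, b x * G x ∂μ) - P| ≤ K := by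
  have h1 : (∫ x, b x * G x ∂μ) - P = ∫ x, (b x * G x - b x * P) ∂μ := by
    rw [integral_sub hi (hbi.mul_const P), integral_mul_const, hb1, one_mul]
  rw [h1, ← Real.norm_eq_abs]
  refine (norm_integral_le_integral_norm _).trans ?_
  have h2 : ∫ x, ‖b x * G x - b x * P‖ ∂μ ≤ ∫ x, b x * K ∂μ := by
    refine integral_mono_of_nonneg (Filter.Eventually.of_forall fun x => norm_nonneg _)
      (hbi.mul_const K) (Filter.Eventually.of_forall fun x => ?_)
    show ‖b x * G x - b x * P‖ ≤ b x * K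
    rw [← mul_sub, norm_mul, Real.norm_of_nonneg (hb0 x)]
    by_cases hx : b x = 0
    · simp [hx]
    · exact mul_le_mul_of_nonneg_left (h x hx) (hb0 x)
  rw [integral_mul_const, hb1, one_mul] at h2
  exact h2

/-- the average over both laws is integrable -/
theorem int_two (hMBU : T_MBU) (hTN : T_TN) {m k p q D : ℕ} (hpq : p + q = k) (hD : 1 ≤ D)
    (f : (Fin (k + 1) → ℂ) → ℝ) (Φ : Fin (k + 1) → MvPolynomial (Fin (k + 1)) ℂ)
    (hΦ : IsH D Φ) (S : Form (Fin (k + 1)) p) (hS : ProjForm S)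
    (u : Fin q → (Fin (k + 1) → ℂ) → ℝ) (hf : Hom0 f) (hu : ∀ l, Pot (u l)) (B : ℝ)
    (hB : ∀ z, z ≠ 0 → |f z| ≤ B) :
    Integrable (fun Z : (Fin (k + 1) → Fin (k + 1) → ℂ) × (Fin (k + 1) → Fin (k + 1) → ℂ) =>
      bth (th0 k) Z.1 * (bth (th0 k) Z.2 * am f Φ S u (mX m Z.1 * (1 + Matrix.of Z.2)))) := by
  obtain ⟨hbc, hb0, hbi, hb1, hbs⟩ := bth_facts hMBU k (th0 k) (th0_pos k)
  obtain ⟨t1, t2, _⟩ := hTN (k + 1) p q D Φ S f u B (by omega) hD hΦ hS hf hu hB
  set T : (Fin (k + 1) → Fin (k + 1) → ℂ) × (Fin (k + 1) → Fin (k + 1) → ℂ) →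
    (Fin (k + 1) → Fin (k + 1) → ℂ) := fun Z i j =>
      (mX m Z.1 * (1 + Matrix.of Z.2) : Matrix (Fin (k + 1)) (Fin (k + 1)) ℂ) i j with hT
  have hTc : Continuous T := by
    refine continuous_pi fun i => continuous_pi fun j => ?_
    rw [hT]
    simp only [Matrix.mul_apply]
    refine continuous_finsetSum _ fun l _ => Continuous.mul ?_ ?_
    · unfold mX msk
      by_cases hc : (i : ℕ) < m ∧ l ≠ i
      · simp only [if_pos hc]
        exact continuous_const
      · simp only [if_neg hc, Matrix.add_apply, Matrix.of_apply]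
        exact continuous_const.add ((continuous_apply l).comp ((continuous_apply i).comp
          continuous_fst))
    · simp only [Matrix.add_apply, Matrix.of_apply]
      exact continuous_const.add ((continuous_apply j).comp ((continuous_apply l).comp
          continuous_snd))
  have hTo : ∀ Z, Matrix.of (T Z) = mX m Z.1 * (1 + Matrix.of Z.2) := fun Z => rfl
  set U : Set ((Fin (k + 1) → Fin (k + 1) → ℂ) × (Fin (k + 1) → Fin (k + 1) → ℂ)) :=
    {Z | (Matrix.of (T Z)).det ≠ 0} with hU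
  have hdc : Continuous fun Z => (Matrix.of (T Z)).det := by
    have h1 : Continuous fun X : Fin (k + 1) → Fin (k + 1) → ℂ => (Matrix.of X).det :=
      Continuous.matrix_det continuous_id
    exact h1.comp hTc
  have hUo : IsOpen U := isOpen_ne_fun hdc continuous_const
  have hout : ∀ Z, Z ∉ U → bth (th0 k) Z.1 * bth (th0 k) Z.2 = 0 := by
    intro Z hZ
    by_contra hc
    apply hZ
    have h1 := left_ne_zero_of_mul hc
    have h2 := right_ne_zero_of_mul hc
    show (Matrix.of (T Z)).det ≠ 0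
    rw [hTo, Matrix.det_mul]
    exact mul_ne_zero (near_msk m Z.1 (hbs _ h1)) (near_one Z.2 (hbs _ h2))
  have hac : ContinuousOn (fun Z => am f Φ S u (mX m Z.1 * (1 + Matrix.of Z.2))) U := by
    have h1 := t1.comp (s := U) hTc.continuousOn fun Z hZ => hZ
    exact h1
  have hgc : ContinuousOn (fun Z => bth (th0 k) Z.1 * (bth (th0 k) Z.2 *
      am f Φ S u (mX m Z.1 * (1 + Matrix.of Z.2)))) U :=
    (hbc.comp continuous_fst).continuousOn.mul
      ((hbc.comp continuous_snd).continuousOn.mul hac)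
  have hprod : Integrable
      (fun Z : (Fin (k + 1) → Fin (k + 1) → ℂ) × (Fin (k + 1) → Fin (k + 1) → ℂ) =>
      bth (th0 k) Z.1 * bth (th0 k) Z.2) := by
    rw [Measure.volume_eq_prod]
    exact hbi.mul_prod hbi
  refine Integrable.mono' (hprod.mul_const (B * ((D : ℝ) ^ p * mass q S))) ?_ ?_
  · have h1 : (fun Z => bth (th0 k) Z.1 * (bth (th0 k) Z.2 *
      am f Φ S u (mX m Z.1 * (1 + Matrix.of Z.2)))) =
        U.indicator (fun Z => bth (th0 k) Z.1 * (bth (th0 k) Z.2 *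
      am f Φ S u (mX m Z.1 * (1 + Matrix.of Z.2)))) := by
      funext Z
      by_cases hZ : Z ∈ U
      · rw [Set.indicator_of_mem hZ]
      · rw [Set.indicator_of_notMem hZ, ← mul_assoc, hout Z hZ, zero_mul]
    rw [h1, aestronglyMeasurable_indicator_iff hUo.measurableSet]
    exact hgc.aestronglyMeasurable hUo.measurableSet
  · refine Filter.Eventually.of_forall fun Z => ?_
    by_cases hZ : Z ∈ U
    · rw [← mul_assoc, norm_mul, Real.norm_of_nonneg (mul_nonneg (hb0 _) (hb0 _))]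
      refine mul_le_mul_of_nonneg_left ?_ (mul_nonneg (hb0 _) (hb0 _))
      exact t2 _ hZ
    · rw [← mul_assoc, hout Z hZ, zero_mul, zero_mul, norm_zero]

/-- the average over the second law, for one matrix -/
theorem one_mat (hMRS : T_MRS) (hTZ : T_TZ) (hIZ : T_IZ) (hMBU : T_MBU) (hD5 : T_D5)
    (hD8 : T_D8) (hD13 : T_D13) (hP5 : T_P5) (k p q : ℕ) (hpq : p + q = k) :
    ∃ C : ℝ, 0 < C ∧ ∀ (D : ℕ) (Φ : Fin (k + 1) → MvPolynomial (Fin (k + 1)) ℂ), 1 ≤ D →
    IsH D Φ → ∀ (w w' : (Fin (k + 1) → ℂ) → ℝ) (u : Fin q → (Fin (k + 1) → ℂ) → ℝ) (B : ℝ),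
    Pot w → Pot w' → Hom0 (fun z => w z - w' z) → (∀ j, Pot (u j)) → 0 ≤ B →
    (∀ z, z ≠ 0 → |w z - w' z| ≤ B) → ∀ (S : Form (Fin (k + 1)) p), ProjForm S →
    mass q S = mass q (om (k + 1) p) →
    |(∫ X : Fin (k + 1) → Fin (k + 1) → ℂ,
        bth (th0 k) X * am (fun z => w z - w' z) Φ S u (1 + Matrix.of X)) -
      pair (fun z => w z - w' z) (pull Φ (om (k + 1) p)) u| ≤
      C * (1 + B + Real.log D) * ((D : ℝ) ^ p / D) * mass q (om (k + 1) p) := by
  obtain ⟨C2, hC2, hSm⟩ := hMRS k p q hpq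
  obtain ⟨C3, hC3, hT⟩ := hTZ (k + 1) p q
  obtain ⟨hbc, hb0, hbi, hb1, hbs⟩ := bth_facts hMBU k (th0 k) (th0_pos k)
  refine ⟨C2 + C3, by positivity, ?_⟩
  intro D Φ hD hΦ w w' u B hw hw' hf0 hu hB hwB S hS hms
  have hD' : (1 : ℝ) ≤ D := by exact_mod_cast hD
  have hD0 : (0 : ℝ) < D := by linarith
  have hlog : 0 ≤ Real.log D := Real.log_nonneg hD'
  have hM : 0 ≤ mass q S := (hP5 (k + 1) p q 1 S (by omega) hS).2.2
  have hθ1 : (1 : ℝ) / D ≤ 1 := by
    rw [div_le_one hD0]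
    exact hD'
  obtain ⟨_, i2, i3⟩ := hSm D Φ hD hΦ (fun z => w z - w' z) u B (1 / D) hf0 hB hwB hu
    (by positivity) hθ1 S hS
  set P := pair (fun z => w z - w' z) (pull Φ (om (k + 1) p)) u with hP
  set G : (Fin (k + 1) → Fin (k + 1) → ℂ) → ℝ := fun X =>
    ∫ Y : Fin (k + 1) → Fin (k + 1) → ℂ, gss Y * am (fun z => w z - w' z) Φ S u
      ((1 + Matrix.of X) * (1 + (((1 : ℝ) / D : ℝ) : ℂ) • Matrix.of Y)) with hG
  have hGi : ∀ X : Fin (k + 1) → Fin (k + 1) → ℂ,
      (∫ Y : Fin (k + 1) → Fin (k + 1) → ℂ, bth (th0 k) X * (gss Y *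
        am (fun z => w z - w' z) Φ S u
          ((1 + Matrix.of X) * (1 + (((1 : ℝ) / D : ℝ) : ℂ) • Matrix.of Y)))) =
        bth (th0 k) X * G X := by
    intro X
    rw [integral_const_mul]
  rw [Measure.volume_eq_prod] at i2
  have i4 := i2.integral_prod_left
  simp only [hGi] at i3 i4
  have hK : ∀ X : Fin (k + 1) → Fin (k + 1) → ℂ, bth (th0 k) X ≠ 0 →
      |G X - P| ≤ C3 * (1 + Real.log D) * ((D : ℝ) ^ p / D) * mass q S := by
    intro X hX
    have hdet := near_one X (hbs X hX)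
    obtain ⟨hS2, hm2⟩ := lin_form hD5 hD13 hP5 hpq S hS _ hdet
    obtain ⟨_, _, t3⟩ := hT D Φ hD hΦ w w' u hw hw' hu _ hS2 (1 / D) (by positivity) hθ1
    have h1 := hIZ (k + 1) p q D Φ hD hΦ (fun z => w z - w' z) u hf0 hu _ hS2
      (hm2.trans hms)
    rw [h1, hm2] at t3
    have h2 : G X = ∫ Y : Fin (k + 1) → Fin (k + 1) → ℂ, gss Y *
        am (fun z => w z - w' z) Φ (pull (lin (1 + Matrix.of X)) S) u
          (1 + (((1 : ℝ) / D : ℝ) : ℂ) • Matrix.of Y) := by
      rw [hG]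
      simp only [am_mul hD8 hD13]
    rw [h2]
    have h3 : (1 : ℝ) / (1 / D) = D := by
      field_simp
    rw [h3] at t3
    exact t3
  have h5 := avg (bth (th0 k)) G P _ hb0 hbi hb1 i4 hK
  have h6 := abs_sub_le (∫ X : Fin (k + 1) → Fin (k + 1) → ℂ,
        bth (th0 k) X * am (fun z => w z - w' z) Φ S u (1 + Matrix.of X))
    (∫ X : Fin (k + 1) → Fin (k + 1) → ℂ, bth (th0 k) X * G X) P
  refine h6.trans ((add_le_add i3 h5).trans ?_)
  rw [← hms]
  have h7 : (C2 + C3) * (1 + B + Real.log D) * ((D : ℝ) ^ p / D) * mass q S -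
      (C2 * (1 / D) * B * ((D : ℝ) ^ p * mass q S) +
        C3 * (1 + Real.log D) * ((D : ℝ) ^ p / D) * mass q S) =
      (C2 * (1 + Real.log D) + C3 * B) * ((D : ℝ) ^ p / D) * mass q S := by
    field_simp
    ring
  have h8 : 0 ≤ (C2 * (1 + Real.log D) + C3 * B) * ((D : ℝ) ^ p / D) * mass q S := by
    positivity
  linarith

theorem pf_MRZ (hMRV : T_MRV) (hMRS : T_MRS) (hTZ : T_TZ) (hIZ : T_IZ)
    (hMBU : T_MBU) (hTN : T_TN) (hD5 : T_D5) (hD7 : T_D7) (hD8 : T_D8) (hD13 : T_D13)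
    (hP5 : T_P5) (hL1 : T_L1) (hW0 : T_W0) : T_MRZ := by
  intro m k p q hm hpq κ
  have hom : ∀ w w' : (Fin (k + 1) → ℂ) → ℝ, Pot w → Pot w' → Hom0 (fun z => w z - w' z) := by
    intro w w' hw hw'
    have h1 := (hL1 (k + 1) 1 1 1 (-1) w w').1
      ((hL1 (k + 1) 1 1 1 (-1) w w').2.2.1 hw) ((hL1 (k + 1) 1 1 1 (-1) w' w').2.2.1 hw')
    have h2 : (fun z => 1 * w z + -1 * w' z) = fun z => w z - w' z := by
      funext z
      ring
    rw [h2] at h1
    have h3 : (1 * 1 + -1 * 1 : ℝ) = 0 := by norm_num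
    rw [h3] at h1
    exact ((hL1 (k + 1) 0 0 0 0 (fun z => w z - w' z) w').2.1).2 h1
  have hmass : 0 < mass q (om (k + 1) p) := ((hD7 (k + 1) p).2 q (by omega)).1
  obtain ⟨hbc, hb0, hbi, hb1, hbs⟩ := bth_facts hMBU k (th0 k) (th0_pos k)
  rcases Nat.eq_zero_or_pos p with hp | hp
  · subst hp
    refine ⟨1, one_pos, ?_⟩
    intro D Φ hD hΦ w w' u B hw hw' hu hB hwB S A hA hS hK hms hlm
    obtain ⟨r, hr, hSr⟩ := Pool.Agent.H1.EHD.const_form hW0 S hS
    have hr1 : r = 1 := by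
      have h1 : mass q S = r * mass q (om (k + 1) 0) := by
        unfold mass pair
        have h2 : ∀ z : Fin (k + 1) → ℂ, z ≠ 0 → 1 * Q S (fun _ : Fin q => ell) z =
            r * (1 * Q (om (k + 1) 0) (fun _ : Fin q => ell) z) := by
          intro z hz
          unfold Q
          have h3 : S z = fun I J => (r : ℂ) * om (k + 1) 0 z I J := by
            funext I J
            rw [hSr z hz]
            simp [om]
          rw [h3, Pool.Agent.H1.EHD.mixD_smul, Complex.re_ofReal_mul]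
          ring
        rw [Pool.Agent.H1.EHD.Iint_congr (by omega) _ _ h2]
        unfold Iint
        rw [integral_const_mul]
      rw [hms] at h1
      have h2 : (r - 1) * mass q (om (k + 1) 0) = 0 := by linarith
      rcases mul_eq_zero.1 h2 with h3 | h3
      · linarith
      · exact absurd h3 hmass.ne'
    have hS1 : ∀ z : Fin (k + 1) → ℂ, z ≠ 0 → ∀ I J, S z I J = 1 := by
      intro z hz I J
      rw [hSr z hz, hr1, Complex.ofReal_one]
    have hom1 : ∀ z : Fin (k + 1) → ℂ, z ≠ 0 → ∀ I J, om (k + 1) 0 z I J = 1 := by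
      intro z _ I J
      rfl
    have ham : ∀ M : Matrix (Fin (k + 1)) (Fin (k + 1)) ℂ, M.det ≠ 0 →
        am (fun z => w z - w' z) Φ S u M =
          pair (fun z => w z - w' z) (pull Φ (om (k + 1) 0)) u := by
      intro M hM
      unfold am pair
      refine Pool.Agent.H1.EHD.Iint_congr (by omega) _ _ fun z hz => ?_
      have h1 : ev Φ z ≠ 0 := fun h => hz (hΦ.nd z h)
      have h2 : ev (cmp (lin M) Φ) z ≠ 0 := by
        rw [Pool.Agent.H1.EHD.ev_cmp_lin]
        intro h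
        exact h1 (Matrix.eq_zero_of_mulVec_eq_zero hM h)
      have h3 : pull (cmp (lin M) Φ) S z = pull Φ (om (k + 1) 0) z := by
        funext I J
        rw [Pool.Agent.H1.EHD.pull_zero _ S z h2 hS1,
          Pool.Agent.H1.EHD.pull_zero _ _ z h1 hom1]
      unfold Q
      rw [h3]
    have hmain : ∫ X : Fin (k + 1) → Fin (k + 1) → ℂ,
        bth (th0 k) X * am (fun z => w z - w' z) Φ S u (mX m X) =
        pair (fun z => w z - w' z) (pull Φ (om (k + 1) 0)) u := by
      have h1 : ∀ X : Fin (k + 1) → Fin (k + 1) → ℂ,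
          bth (th0 k) X * am (fun z => w z - w' z) Φ S u (mX m X) =
          bth (th0 k) X * pair (fun z => w z - w' z) (pull Φ (om (k + 1) 0)) u := by
        intro X
        by_cases hX : bth (th0 k) X = 0
        · rw [hX, zero_mul, zero_mul]
        · rw [ham _ (near_msk m X (hbs X hX))]
      simp only [h1]
      rw [integral_mul_const, hb1, one_mul]
    rw [hmain, sub_self, abs_zero]
    have hD' : (1 : ℝ) ≤ D := by exact_mod_cast hD
    have hlog : 0 ≤ Real.log D := Real.log_nonneg hD'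
    positivity
  · obtain ⟨s, rfl⟩ : ∃ s, p = s + 1 := ⟨p - 1, by omega⟩
    obtain ⟨C1, hC1, hR⟩ := hMRV m k s q κ hm hpq
    obtain ⟨C2, hC2, hO⟩ := one_mat hMRS hTZ hIZ hMBU hD5 hD8 hD13 hP5 k (s + 1) q hpq
    refine ⟨((k + 1) * (k + 1) : ℕ) * C1 / mass q (om (k + 1) (s + 1)) + C2, by positivity, ?_⟩
    intro D Φ hD hΦ w w' u B hw hw' hu hB hwB S A hA hS hK hms hlm
    have hf0 := hom w w' hw hw'
    have hD' : (1 : ℝ) ≤ D := by exact_mod_cast hD
    have hD0 : (0 : ℝ) < D := by linarith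
    have hlog : 0 ≤ Real.log D := Real.log_nonneg hD'
    set K : ℝ := C1 * (1 + A) * ((D : ℝ) ^ (s + 1) / D) with hKd
    have hK0 : 0 ≤ K := by positivity
    set E : ℕ → ℝ := fun r =>
      ∫ X' : Fin (k + 1) → Fin (k + 1) → ℂ, ∫ X : Fin (k + 1) → Fin (k + 1) → ℂ,
        bth (th0 k) X' * (bth (th0 k) X *
          am (fun z => w z - w' z) Φ S u (mX m X' * (1 + Matrix.of (sw r X)))) with hE
    have htel : ∀ r : ℕ, r ≤ (k + 1) * (k + 1) → |E r - E 0| ≤ r * K := by
      intro r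
      induction r with
      | zero =>
        intro _
        simp
      | succ r ih =>
        intro hr
        have h1 := ih (by omega)
        have h2 := hR D Φ hD hΦ w w' u hw hw' hu S A hA hS hK hlm hms r (by omega)
        have h3 := abs_sub_le (E (r + 1)) (E r) (E 0)
        have h4 : ((r + 1 : ℕ) : ℝ) * K = K + r * K := by
          push_cast
          ring
        rw [h4]
        exact h3.trans (add_le_add h2 h1)
    have hE0 : E 0 = ∫ X : Fin (k + 1) → Fin (k + 1) → ℂ,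
        bth (th0 k) X * am (fun z => w z - w' z) Φ S u (mX m X) := by
      have h1 : ∀ X' : Fin (k + 1) → Fin (k + 1) → ℂ,
          (∫ X : Fin (k + 1) → Fin (k + 1) → ℂ, bth (th0 k) X' * (bth (th0 k) X *
            am (fun z => w z - w' z) Φ S u (mX m X' * (1 + Matrix.of (sw 0 X))))) =
          bth (th0 k) X' * am (fun z => w z - w' z) Φ S u (mX m X') := by
        intro X'
        have h2 : ∀ X : Fin (k + 1) → Fin (k + 1) → ℂ,
            mX m X' * (1 + Matrix.of (sw 0 X)) = mX m X' := by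
          intro X
          rw [sw_zero]
          have h3 : (Matrix.of (0 : Fin (k + 1) → Fin (k + 1) → ℂ)) = 0 := rfl
          rw [h3, add_zero, mul_one]
        simp only [h2]
        rw [integral_const_mul, integral_mul_const, hb1, one_mul]
      show (∫ X' : Fin (k + 1) → Fin (k + 1) → ℂ, ∫ X : Fin (k + 1) → Fin (k + 1) → ℂ,
        bth (th0 k) X' * (bth (th0 k) X *
          am (fun z => w z - w' z) Φ S u (mX m X' * (1 + Matrix.of (sw 0 X))))) = _
      simp only [h1]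
    have hEn : |E ((k + 1) * (k + 1)) -
        pair (fun z => w z - w' z) (pull Φ (om (k + 1) (s + 1))) u| ≤
        C2 * (1 + B + Real.log D) * ((D : ℝ) ^ (s + 1) / D) *
          mass q (om (k + 1) (s + 1)) := by
      have h0 := int_two hMBU hTN (m := m) hpq hD (fun z => w z - w' z) Φ hΦ S hS u hf0 hu B hwB
      rw [Measure.volume_eq_prod] at h0
      have h1 := h0.integral_prod_left
      have h2 : ∀ X' : Fin (k + 1) → Fin (k + 1) → ℂ,
          (∫ X : Fin (k + 1) → Fin (k + 1) → ℂ, bth (th0 k) X' * (bth (th0 k) X *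
            am (fun z => w z - w' z) Φ S u (mX m X' * (1 + Matrix.of X)))) =
          bth (th0 k) X' * ∫ X : Fin (k + 1) → Fin (k + 1) → ℂ, bth (th0 k) X *
            am (fun z => w z - w' z) Φ S u (mX m X' * (1 + Matrix.of X)) := by
        intro X'
        rw [integral_const_mul]
      simp only [h2] at h1
      have h3 : E ((k + 1) * (k + 1)) = ∫ X' : Fin (k + 1) → Fin (k + 1) → ℂ,
          bth (th0 k) X' * ∫ X : Fin (k + 1) → Fin (k + 1) → ℂ, bth (th0 k) X *
            am (fun z => w z - w' z) Φ S u (mX m X' * (1 + Matrix.of X)) := by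
        rw [hE]
        simp only [sw_all, h2]
      rw [h3]
      refine avg (bth (th0 k)) _ _ _ hb0 hbi hb1 h1 fun X' hX' => ?_
      have hdet := near_msk m X' (hbs X' hX')
      obtain ⟨hS2, hm2⟩ := lin_form hD5 hD13 hP5 hpq S hS _ hdet
      have h4 := hO D Φ hD hΦ w w' u B hw hw' hf0 hu hB hwB _ hS2 (hm2.trans hms)
      simp only [am_mul hD8 hD13 _ Φ S u (mX m X')]
      exact h4
    have h5 := htel ((k + 1) * (k + 1)) le_rfl
    rw [← hE0]
    rw [abs_sub_comm] at h5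
    have h6 := abs_sub_le (E 0) (E ((k + 1) * (k + 1)))
      (pair (fun z => w z - w' z) (pull Φ (om (k + 1) (s + 1))) u)
    refine h6.trans ((add_le_add h5 hEn).trans ?_)
    set M0 := mass q (om (k + 1) (s + 1)) with hM0
    have h7 : (((k + 1) * (k + 1) : ℕ) * C1 / M0 + C2) * (1 + A + B + Real.log D) *
        ((D : ℝ) ^ (s + 1) / D) * M0 -
        (((k + 1) * (k + 1) : ℕ) * K +
          C2 * (1 + B + Real.log D) * ((D : ℝ) ^ (s + 1) / D) * M0) =
        (((k + 1) * (k + 1) : ℕ) * C1 * (B + Real.log D) + C2 * A * M0) *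
          ((D : ℝ) ^ (s + 1) / D) := by
      rw [hKd]
      field_simp
      ring
    have h8 : 0 ≤ (((k + 1) * (k + 1) : ℕ) * C1 * (B + Real.log D) + C2 * A * M0) *
          ((D : ℝ) ^ (s + 1) / D) := by
      positivity
    linarith

end Pool.Agent.H29.EM
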