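import Pool.Agent.H92.EM.TC
import Pool.Agent.H97.EHD.RDA
import Pool.Agent.H80.EHD.EA3

/-!
Board emd_modules (MP_75a732_an), row MSA: domination of a tensor near a hyperplane.
-/

set_option autoImplicit false

open scoped BigOperators ComplexConjugate ContDiff ComplexOrder
open MeasureTheory Pool.Agent.H92.EQ Pool.Agent.H92.EM
open Pool.Agent.H97.EHD (PJ DD Kil Alt fix_DD DD_conj DD_alt DD_kil om_DD psd_tr psd_two sum_cons)

namespace Pool.Agent.H29.EM

noncomputable section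

variable {N : ℕ}

theorem cj (z : ℂ) : z * conj z = ((‖z‖ ^ 2 : ℝ) : ℂ) := by
  rw [Complex.mul_conj, Complex.normSq_eq_norm_sq]

/-- the Gram matrix of the rows -/
theorem gram {y : Fin N → ℂ} (hy : y ≠ 0) {s : ℕ} {X : Type} [Fintype X]
    (φ : X → Fin s → Fin N) (g : X → ℂ) :
    ((∑ K : Fin s → Fin N, ‖∑ x, g x * DD y s (φ x) K‖ ^ 2 : ℝ) : ℂ) =
      (s.factorial : ℂ) * ∑ x, ∑ x', g x * conj (g x') * DD y s (φ x) (φ x') := by
  have h1 : ∀ K : Fin s → Fin N, ((‖∑ x, g x * DD y s (φ x) K‖ ^ 2 : ℝ) : ℂ) =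
      ∑ x, ∑ x', g x * conj (g x') * (DD y s (φ x) K * DD y s K (φ x')) := by
    intro K
    rw [← cj, map_sum, Finset.sum_mul_sum]
    refine Finset.sum_congr rfl fun x _ => Finset.sum_congr rfl fun x' _ => ?_
    rw [map_mul, DD_conj]
    ring
  rw [Complex.ofReal_sum]
  rw [Finset.sum_congr rfl fun K _ => h1 K, Finset.sum_comm, Finset.mul_sum]
  refine Finset.sum_congr rfl fun x _ => ?_
  rw [Finset.sum_comm, Finset.mul_sum]
  refine Finset.sum_congr rfl fun x' _ => ?_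
  rw [← Finset.mul_sum, fix_DD (fun K => DD y s K (φ x')) (DD_kil hy s _) (DD_alt y s _) (φ x)]
  ring

/-- the expansion along the first column -/
theorem DD_cons (y : Fin N → ℂ) (s : ℕ) (I : Fin (s + 1) → Fin N) (b : Fin N)
    (K : Fin s → Fin N) : DD y (s + 1) I (Fin.cons (α := fun _ => Fin N) b K) =
      ∑ a : Fin (s + 1), ((-1 : ℂ) ^ (a : ℕ) * PJ y (I a) b) * DD y s (I ∘ a.succAbove) K := by
  unfold DD
  rw [Matrix.det_succ_column_zero]
  refine Finset.sum_congr rfl fun a _ => ?_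
  rfl

theorem fac_ne (s : ℕ) : (s.factorial : ℂ) ≠ 0 := by
  exact_mod_cast Nat.factorial_ne_zero s

/-- the exterior product with the rank one form -/
theorem wedge_pi (hW9 : T_W9) {y : Fin N → ℂ} (hy : y ≠ 0) (hn : nsq y = 1) (b : Fin N)
    (s : ℕ) (c : (Fin (s + 1) → Fin N) → ℂ) :
    ((∑ K : Fin s → Fin N,
      ‖∑ I, c I * DD y (s + 1) I (Fin.cons (α := fun _ => Fin N) b K)‖ ^ 2 : ℝ) : ℂ) =
      (((s + 1).factorial : ℂ) ^ 2 * 2 ^ s) * ∑ I, ∑ J, c I * conj (c J) *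
        wedge (om N s y) (fun a a' => PJ y a b * conj (PJ y a' b)) I J := by
  have h1 : ∀ K : Fin s → Fin N,
      ∑ I, c I * DD y (s + 1) I (Fin.cons (α := fun _ => Fin N) b K) =
      ∑ x : (Fin (s + 1) → Fin N) × Fin (s + 1),
        (c x.1 * ((-1 : ℂ) ^ (x.2 : ℕ) * PJ y (x.1 x.2) b)) *
          DD y s (x.1 ∘ x.2.succAbove) K := by
    intro K
    rw [Fintype.sum_prod_type]
    refine Finset.sum_congr rfl fun I _ => ?_
    rw [DD_cons, Finset.mul_sum]
    refine Finset.sum_congr rfl fun a _ => ?_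
    ring
  simp only [h1]
  rw [gram hy, Fintype.sum_prod_type]
  simp only [Fintype.sum_prod_type]
  rw [Finset.mul_sum, Finset.mul_sum]
  refine Finset.sum_congr rfl fun I _ => ?_
  rw [Finset.sum_comm, Finset.mul_sum, Finset.mul_sum]
  refine Finset.sum_congr rfl fun J _ => ?_
  unfold wedge
  simp only [Finset.mul_sum]
  refine Finset.sum_congr rfl fun a _ => Finset.sum_congr rfl fun a' _ => ?_
  rw [← om_DD hW9 hy s (I ∘ a.succAbove) (J ∘ a'.succAbove), hn, Complex.ofReal_one, one_pow,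
    mul_one]
  simp only [map_mul, map_pow, map_neg, map_one]
  have hs : ((s : ℂ) + 1) ≠ 0 := by exact_mod_cast Nat.succ_ne_zero s
  rw [Nat.factorial_succ]
  push_cast
  rw [pow_add]
  field_simp

/-- the square of the length -/
theorem om_len (hW9 : T_W9) {y : Fin N → ℂ} (hy : y ≠ 0) (hn : nsq y = 1)
    (s : ℕ) (c : (Fin s → Fin N) → ℂ) :
    ((∑ K : Fin s → Fin N, ‖∑ I, c I * DD y s I K‖ ^ 2 : ℝ) : ℂ) =
      ((s.factorial : ℂ) ^ 2 * 2 ^ s) * ∑ I, ∑ J, c I * conj (c J) * om N s y I J := by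
  have h := gram hy (fun I : Fin s → Fin N => I) c
  rw [h, Finset.mul_sum, Finset.mul_sum]
  refine Finset.sum_congr rfl fun I _ => ?_
  rw [Finset.mul_sum, Finset.mul_sum]
  refine Finset.sum_congr rfl fun J _ => ?_
  rw [← om_DD hW9 hy s I J, hn, Complex.ofReal_one, one_pow, mul_one]
  ring

/-- the tensor only sees the projection -/
theorem sand {y : Fin N → ℂ} {s : ℕ} (W : (Fin s → Fin N) → (Fin s → Fin N) → ℂ)
    (hW : Pool.Agent.H92.EHD.Ten y W) (c : (Fin s → Fin N) → ℂ) :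
    (s.factorial : ℂ) ^ 2 * ∑ I, ∑ J, c I * conj (c J) * W I J =
      ∑ K, ∑ L, (∑ I, c I * DD y s I K) * conj (∑ I, c I * DD y s I L) * W K L := by
  set f : ℂ := (s.factorial : ℂ) with hf
  have hfr : conj f = f := by rw [hf]; exact Complex.conj_natCast _
  set d : (Fin s → Fin N) → ℂ := fun K => ∑ I, c I * DD y s I K with hd
  have hleft : ∀ V : (Fin s → Fin N) → ℂ, Kil y V → Alt V →
      ∑ K, d K * V K = f * ∑ I, c I * V I := by
    intro V h1 h2
    rw [hd]
    simp only [Finset.sum_mul]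
    rw [Finset.sum_comm, Finset.mul_sum]
    refine Finset.sum_congr rfl fun I _ => ?_
    have h3 := fix_DD V h1 h2 I
    simp only [mul_assoc]
    rw [← Finset.mul_sum, h3]
    ring
  have hkl : ∀ J, Kil y (fun I => W I J) := fun J I j => hW.kilL I J j
  have hal : ∀ J, Alt (fun I => W I J) := fun J π I => hW.altL π I J
  have hkr : ∀ I, Kil y (fun J => conj (W I J)) := by
    intro I J j
    have h1 := hW.kilR I J j
    have h2 := congrArg conj h1
    rw [map_sum, map_zero] at h2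
    rw [← h2]
    refine Finset.sum_congr rfl fun a _ => ?_
    rw [map_mul, Complex.conj_conj]
  have har : ∀ I, Alt (fun J => conj (W I J)) := by
    intro I π J
    show conj (W I (J ∘ π)) = _
    rw [hW.altR π I J, map_mul]
    congr 1
    exact map_intCast (starRingEnd ℂ) _
  have h1 : ∀ L, ∑ K, d K * conj (d L) * W K L = f * (conj (d L) * ∑ I, c I * W I L) := by
    intro L
    have h2 := hleft _ (hkl L) (hal L)
    have h3 : ∑ K, d K * conj (d L) * W K L = conj (d L) * ∑ K, d K * W K L := by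
      rw [Finset.mul_sum]
      refine Finset.sum_congr rfl fun K _ => ?_
      ring
    rw [h3, h2]
    ring
  show f ^ 2 * ∑ I, ∑ J, c I * conj (c J) * W I J = ∑ K, ∑ L, d K * conj (d L) * W K L
  rw [Finset.sum_comm (f := fun K L => d K * conj (d L) * W K L)]
  rw [Finset.sum_congr rfl fun L _ => h1 L, ← Finset.mul_sum]
  have h4 : ∀ I, ∑ L, conj (d L) * W I L = f * ∑ J, conj (c J) * W I J := by
    intro I
    have h5 := hleft _ (hkr I) (har I)
    have h6 := congrArg conj h5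
    rw [map_mul, hfr, map_sum, map_sum] at h6
    simp only [map_mul, Complex.conj_conj] at h6
    exact h6
  have h7 : ∑ L, conj (d L) * ∑ I, c I * W I L =
      ∑ I, c I * (f * ∑ J, conj (c J) * W I J) := by
    simp only [Finset.mul_sum]
    rw [Finset.sum_comm]
    refine Finset.sum_congr rfl fun I _ => ?_
    have h8 := h4 I
    rw [← Finset.mul_sum]
    have h9 : ∑ L, conj (d L) * (c I * W I L) = c I * ∑ L, conj (d L) * W I L := by
      rw [Finset.mul_sum]
      refine Finset.sum_congr rfl fun K _ => ?_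
      ring
    rw [h9, h8, Finset.mul_sum]
  rw [h7, pow_two, mul_assoc]
  congr 1
  rw [Finset.mul_sum]
  refine Finset.sum_congr rfl fun I _ => ?_
  rw [Finset.mul_sum, Finset.mul_sum, Finset.mul_sum]
  refine Finset.sum_congr rfl fun J _ => ?_
  ring

/-- the weights -/
def wtb (b : Fin N) (δ : ℝ) : Fin N → ℝ := fun i => (if i = b then 1 else 0) + δ ^ 2

theorem wq_wtb (b : Fin N) (δ : ℝ) (z : Fin N → ℂ) :
    Pool.Agent.H80.EHD.wq (wtb b δ) z = ‖z b‖ ^ 2 + δ ^ 2 * nsq z := by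
  unfold Pool.Agent.H80.EHD.wq wtb nsq
  simp only [add_mul, Finset.sum_add_distrib, Finset.mul_sum, ite_mul, one_mul, zero_mul,
    Finset.sum_ite_eq', Finset.mem_univ, if_true]

/-- the Hessian of the potential of a hyperplane -/
theorem hess_b (hW7 : T_W7) (hW9 : T_W9) {y : Fin N → ℂ} (hy : y ≠ 0) (hn : nsq y = 1)
    (b : Fin N) (δ : ℝ) (hδ : 0 < δ) (a a' : Fin N) :
    hessR (fun z => (1 / 2) * Real.log (‖z b‖ ^ 2 + δ ^ 2 * nsq z)) y a a' =
      ((δ ^ 2 / (2 * (‖y b‖ ^ 2 + δ ^ 2) ^ 2) : ℝ) : ℂ) * (PJ y a b * conj (PJ y a' b)) +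
      ((δ ^ 2 / (‖y b‖ ^ 2 + δ ^ 2) : ℝ) : ℂ) * hessR ell y a a' := by
  have hq : 0 < ‖y b‖ ^ 2 + δ ^ 2 := by positivity
  have hT : Pool.Agent.H80.EHD.wq (wtb b δ) y = ‖y b‖ ^ 2 + δ ^ 2 := by
    rw [wq_wtb, hn, mul_one]
  have h := Pool.Agent.H80.EHD.log_hess hW7 (wtb b δ) y (by rw [hT]; exact hq) a a'
  have e : (fun x => (1 / 2) * Real.log (Pool.Agent.H80.EHD.wq (wtb b δ) x)) =
      fun z : Fin N → ℂ => (1 / 2) * Real.log (‖z b‖ ^ 2 + δ ^ 2 * nsq z) := by
    funext x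
    rw [wq_wtb]
  rw [e, hT] at h
  rw [h, Pool.Agent.H97.EHD.hess_PJ hW9 hy, hn]
  have hq0 : ((‖y b‖ : ℂ) ^ 2 + (δ : ℂ) ^ 2) ≠ 0 := by exact_mod_cast hq.ne'
  have hb : (‖y b‖ : ℂ) ^ 2 = y b * conj (y b) := by
    rw [cj]
    push_cast
    rfl
  unfold PJ wtb
  rw [hn]
  push_cast
  rw [hb] at hq0 ⊢
  have h1 : ∀ (p : Prop) [Decidable p], conj (if p then (1 : ℂ) else 0) = if p then 1 else 0 := by
    intro p _
    split_ifs <;> simp
  simp only [map_sub, map_mul, map_div₀, map_one, Complex.conj_conj, h1]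
  by_cases h2 : a = a'
  · subst h2
    by_cases h3 : a = b
    · subst h3
      simp only [if_true]
      push_cast
      field_simp
      ring
    · simp only [if_true, h3, if_false]
      push_cast
      field_simp
      ring
  · by_cases h3 : a = b
    · subst h3
      have h4 : ¬ a' = a := fun h => h2 h.symm
      simp only [if_true, h2, h4, if_false]
      push_cast
      field_simp
      ring
    · by_cases h4 : a' = b
      · subst h4
        simp only [if_true, h3, if_false]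
        push_cast
        field_simp
        ring
      · simp only [h2, h3, h4, if_false]
        push_cast
        field_simp
        ring

theorem psd_split {α : Type} [Fintype α] (T : α → α → ℂ)
    (h : ∀ c : α → ℂ, 0 ≤ ∑ I, ∑ J, c I * conj (c J) * T I J) (d0 d1 : α → ℂ) :
    ∑ I, ∑ J, (d0 I + d1 I) * conj (d0 J + d1 J) * T I J ≤
      2 * (∑ I, ∑ J, d0 I * conj (d0 J) * T I J) +
        2 * ∑ I, ∑ J, d1 I * conj (d1 J) * T I J := by
  rw [← sub_nonneg]
  refine le_of_le_of_eq (h fun I => d0 I - d1 I) ?_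
  simp only [Finset.mul_sum, ← Finset.sum_add_distrib, ← Finset.sum_sub_distrib]
  refine Finset.sum_congr rfl fun I _ => Finset.sum_congr rfl fun J _ => ?_
  rw [map_add, map_sub]
  ring

theorem diag_nn {α : Type} [Fintype α] [DecidableEq α] (T : α → α → ℂ)
    (h : ∀ c : α → ℂ, 0 ≤ ∑ I, ∑ J, c I * conj (c J) * T I J) (I : α) : 0 ≤ (T I I).re := by
  have h1 := psd_two T h 1 0 I I
  have h2 : 0 ≤ T I I := by simpa using h1
  exact (Complex.nonneg_iff.1 h2).1

theorem tr_avoid {s : ℕ} (W : (Fin s → Fin N) → (Fin s → Fin N) → ℂ) (hW : Psd W) (b : Fin N)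
    (d : (Fin s → Fin N) → ℂ) (hd : ∀ I, (∃ l, I l = b) → d I = 0) :
    ∑ I, ∑ J, d I * conj (d J) * W I J ≤
      ((trO b W : ℝ) : ℂ) * ∑ I, d I * conj (d I) := by
  set T : (Fin s → Fin N) → (Fin s → Fin N) → ℂ := fun I J =>
    if (∀ l, I l ≠ b) ∧ (∀ l, J l ≠ b) then W I J else 0 with hT
  have h1 : ∀ c : (Fin s → Fin N) → ℂ, 0 ≤ ∑ I, ∑ J, c I * conj (c J) * T I J := by
    intro c
    refine le_of_le_of_eq (hW fun I => if ∀ l, I l ≠ b then c I else 0) ?_
    refine Finset.sum_congr rfl fun I _ => Finset.sum_congr rfl fun J _ => ?_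
    rw [hT]
    by_cases hI : ∀ l, I l ≠ b
    · by_cases hJ : ∀ l, J l ≠ b
      · simp only [if_pos hI, if_pos hJ, if_pos (And.intro hI hJ)]
      · have h2 : ¬ ((∀ l, I l ≠ b) ∧ ∀ l, J l ≠ b) := fun h => hJ h.2
        simp only [if_neg hJ, if_neg h2, map_zero, mul_zero, zero_mul]
    · have h2 : ¬ ((∀ l, I l ≠ b) ∧ ∀ l, J l ≠ b) := fun h => hI h.1
      simp only [if_neg hI, if_neg h2, mul_zero, zero_mul]
  have h3 := psd_tr T h1 d
  have h4 : (∑ I, (T I I).re : ℝ) = trO b W := by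
    unfold trO
    refine Finset.sum_congr rfl fun I _ => ?_
    rw [hT]
    by_cases hI : ∀ l, I l ≠ b
    · simp only [if_pos hI, if_pos (And.intro hI hI)]
    · have h2 : ¬ ((∀ l, I l ≠ b) ∧ ∀ l, I l ≠ b) := fun h => hI h.1
      simp only [if_neg hI, if_neg h2, Complex.zero_re]
  have h5 : ∑ I, ∑ J, d I * conj (d J) * T I J = ∑ I, ∑ J, d I * conj (d J) * W I J := by
    refine Finset.sum_congr rfl fun I _ => Finset.sum_congr rfl fun J _ => ?_
    rw [hT]
    by_cases hI : ∃ l, I l = b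
    · rw [hd I hI]
      simp
    · by_cases hJ : ∃ l, J l = b
      · rw [hd J hJ]
        simp
      · have h6 : (∀ l, I l ≠ b) ∧ ∀ l, J l ≠ b :=
          ⟨fun l hl => hI ⟨l, hl⟩, fun l hl => hJ ⟨l, hl⟩⟩
        simp only [if_pos h6]
  rw [h4, h5] at h3
  exact h3

theorem slot {s : ℕ} (g : (Fin (s + 1) → Fin N) → ℝ) (hg : ∀ K, 0 ≤ g K)
    (hp : ∀ (π : Equiv.Perm (Fin (s + 1))) K, g (K ∘ π) = g K) (b : Fin N) :
    ∑ K : Fin (s + 1) → Fin N, (if ∃ l, K l = b then g K else 0) ≤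
      (s + 1) * ∑ K : Fin s → Fin N, g (Fin.cons (α := fun _ => Fin N) b K) := by
  have h1 : ∀ K : Fin (s + 1) → Fin N, (if ∃ l, K l = b then g K else 0) ≤
      ∑ l : Fin (s + 1), if K l = b then g K else 0 := by
    intro K
    by_cases h : ∃ l, K l = b
    · rw [if_pos h]
      obtain ⟨l, hl⟩ := h
      refine le_trans ?_ (Finset.single_le_sum (f := fun l => if K l = b then g K else 0)
        (fun l _ => ?_) (Finset.mem_univ l))
      · simp only [hl, if_true, le_refl]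
      · show 0 ≤ if K l = b then g K else 0
        split_ifs
        · exact hg K
        · exact le_rfl
    · rw [if_neg h]
      refine Finset.sum_nonneg fun l _ => ?_
      split_ifs
      · exact hg K
      · exact le_rfl
  have h2 : ∀ l : Fin (s + 1), ∑ K : Fin (s + 1) → Fin N, (if K l = b then g K else 0) =
      ∑ K : Fin s → Fin N, g (Fin.cons (α := fun _ => Fin N) b K) := by
    intro l
    have h3 : ∑ K : Fin (s + 1) → Fin N, (if K l = b then g K else 0) =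
        ∑ K : Fin (s + 1) → Fin N, (if K 0 = b then g K else 0) := by
      refine Fintype.sum_equiv ((Equiv.swap 0 l).arrowCongr (Equiv.refl _)) _ _ fun K => ?_
      have h4 : (Equiv.arrowCongr (Equiv.swap 0 l) (Equiv.refl (Fin N))) K =
          K ∘ (Equiv.swap 0 l) := by
        funext i
        simp [Equiv.arrowCongr]
      rw [h4, hp, Function.comp_apply, Equiv.swap_apply_left]
    rw [h3, ← (Fin.consEquiv (fun _ : Fin (s + 1) => Fin N)).sum_comp, Fintype.sum_prod_type]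
    rw [Finset.sum_eq_single b]
    · refine Finset.sum_congr rfl fun K _ => ?_
      have h5 : (Fin.consEquiv (fun _ : Fin (s + 1) => Fin N)) (b, K) =
        Fin.cons (α := fun _ => Fin N) b K := rfl
      rw [h5, Fin.cons_zero, if_pos rfl]
    · intro a _ ha
      refine Finset.sum_eq_zero fun K _ => ?_
      have h5 : (Fin.consEquiv (fun _ : Fin (s + 1) => Fin N)) (a, K) =
        Fin.cons (α := fun _ => Fin N) a K := rfl
      rw [h5, Fin.cons_zero, if_neg ha]
    · intro h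
      exact absurd (Finset.mem_univ b) h
  refine (Finset.sum_le_sum fun K _ => h1 K).trans ?_
  rw [Finset.sum_comm, Finset.sum_congr rfl fun l _ => h2 l, Finset.sum_const,
    Finset.card_univ, Fintype.card_fin, nsmul_eq_mul]
  push_cast
  exact le_rfl

/-- the tensor is bounded by the lengths -/
theorem bound_W {y : Fin N → ℂ} {s : ℕ} (b : Fin N)
    (W : (Fin (s + 1) → Fin N) → (Fin (s + 1) → Fin N) → ℂ)
    (hW : Pool.Agent.H92.EHD.Ten y W) (c : (Fin (s + 1) → Fin N) → ℂ) :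
    ((s + 1).factorial : ℂ) ^ 2 * ∑ I, ∑ J, c I * conj (c J) * W I J ≤
      ((2 * trO b W * (∑ K, ‖∑ I, c I * DD y (s + 1) I K‖ ^ 2) +
        2 * ((s + 1) * Pool.Agent.H92.EHD.trF W * ∑ K : Fin s → Fin N,
          ‖∑ I, c I * DD y (s + 1) I (Fin.cons (α := fun _ => Fin N) b K)‖ ^ 2) : ℝ) : ℂ) := by
  rw [sand W hW c]
  set d : (Fin (s + 1) → Fin N) → ℂ := fun K => ∑ I, c I * DD y (s + 1) I K with hd
  set d0 : (Fin (s + 1) → Fin N) → ℂ := fun K => if ∃ l, K l = b then 0 else d K with hd0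
  set d1 : (Fin (s + 1) → Fin N) → ℂ := fun K => if ∃ l, K l = b then d K else 0 with hd1
  have hsum : ∀ K, d K = d0 K + d1 K := by
    intro K
    rw [hd0, hd1]
    by_cases h : ∃ l, K l = b
    · simp only [if_pos h, zero_add]
    · simp only [if_neg h, add_zero]
  have h1 := psd_split W hW.psd d0 d1
  simp only [← hsum] at h1
  have hO : 0 ≤ trO b W := by
    unfold trO
    refine Finset.sum_nonneg fun I _ => ?_
    split_ifs
    · exact diag_nn W hW.psd I
    · exact le_rfl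
  have hF : 0 ≤ Pool.Agent.H92.EHD.trF W := by
    unfold Pool.Agent.H92.EHD.trF
    exact Finset.sum_nonneg fun I _ => diag_nn W hW.psd I
  have h2 := tr_avoid W hW.psd b d0 (by
    intro I hI
    rw [hd0]
    simp only [if_pos hI])
  have h3 : ∑ I, ∑ J, d1 I * conj (d1 J) * W I J ≤
      ((Pool.Agent.H92.EHD.trF W : ℝ) : ℂ) * ∑ I, d1 I * conj (d1 I) := psd_tr W hW.psd d1
  have h4 : ∑ I, d0 I * conj (d0 I) = ((∑ I, ‖d0 I‖ ^ 2 : ℝ) : ℂ) := by
    rw [Complex.ofReal_sum]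
    exact Finset.sum_congr rfl fun I _ => cj _
  have h5 : ∑ I, d1 I * conj (d1 I) = ((∑ I, ‖d1 I‖ ^ 2 : ℝ) : ℂ) := by
    rw [Complex.ofReal_sum]
    exact Finset.sum_congr rfl fun I _ => cj _
  rw [h4, ← Complex.ofReal_mul] at h2
  rw [h5, ← Complex.ofReal_mul] at h3
  have h6 : ∑ I, ‖d0 I‖ ^ 2 ≤ ∑ I, ‖d I‖ ^ 2 := by
    refine Finset.sum_le_sum fun K _ => ?_
    rw [hd0]
    by_cases h : ∃ l, K l = b
    · simp only [if_pos h, norm_zero]
      exact le_trans (by norm_num) (sq_nonneg ‖d K‖)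
    · simp only [if_neg h, le_refl]
  have hperm : ∀ (π : Equiv.Perm (Fin (s + 1))) K, ‖d (K ∘ π)‖ ^ 2 = ‖d K‖ ^ 2 := by
    intro π K
    have e1 : d (K ∘ π) = ((Equiv.Perm.sign π : ℤ) : ℂ) * d K := by
      rw [hd]
      simp only [Finset.mul_sum]
      refine Finset.sum_congr rfl fun I _ => ?_
      have e2 : DD y (s + 1) I (K ∘ π) = ((Equiv.Perm.sign π : ℤ) : ℂ) * DD y (s + 1) I K := by
        have e0 : DD y (s + 1) (K ∘ π) I = ((Equiv.Perm.sign π : ℤ) : ℂ) * DD y (s + 1) K I :=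
          DD_alt y (s + 1) I π K
        rw [← DD_conj y (s + 1) (K ∘ π) I, e0, map_mul, DD_conj]
        congr 1
        exact map_intCast (starRingEnd ℂ) _
      rw [e2]
      ring
    rw [e1, norm_mul]
    rcases Int.units_eq_one_or (Equiv.Perm.sign π) with h | h <;> rw [h] <;> simp
  have h7 : ∑ I, ‖d1 I‖ ^ 2 ≤ (s + 1) * ∑ K : Fin s → Fin N,
      ‖d (Fin.cons (α := fun _ => Fin N) b K)‖ ^ 2 := by
    have e1 := slot (fun K => ‖d K‖ ^ 2) (fun K => by positivity) hperm b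
    refine le_trans (le_of_eq ?_) e1
    refine Finset.sum_congr rfl fun K _ => ?_
    rw [hd1]
    by_cases h : ∃ l, K l = b
    · simp only [if_pos h]
    · simp only [if_neg h, norm_zero]
      norm_num
  have h8 : trO b W * ∑ I, ‖d0 I‖ ^ 2 ≤ trO b W * ∑ I, ‖d I‖ ^ 2 :=
    mul_le_mul_of_nonneg_left h6 hO
  have h9 : Pool.Agent.H92.EHD.trF W * ∑ I, ‖d1 I‖ ^ 2 ≤ Pool.Agent.H92.EHD.trF W *
      ((s + 1) * ∑ K : Fin s → Fin N, ‖d (Fin.cons (α := fun _ => Fin N) b K)‖ ^ 2) :=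
    mul_le_mul_of_nonneg_left h7 hF
  have h10 : (2 : ℂ) * (∑ I, ∑ J, d0 I * conj (d0 J) * W I J) +
      2 * (∑ I, ∑ J, d1 I * conj (d1 J) * W I J) ≤
      ((2 * (trO b W * ∑ I, ‖d0 I‖ ^ 2) +
        2 * (Pool.Agent.H92.EHD.trF W * ∑ I, ‖d1 I‖ ^ 2) : ℝ) : ℂ) := by
    have e2 : (0 : ℂ) ≤ 2 := by norm_num
    have e3 := add_le_add (mul_le_mul_of_nonneg_left h2 e2) (mul_le_mul_of_nonneg_left h3 e2)
    refine e3.trans (le_of_eq ?_)
    push_cast
    ring
  refine (h1.trans h10).trans ?_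
  rw [Complex.real_le_real]
  linarith

theorem pf_MSA (hW7 : T_W7) (hW9 : T_W9) : T_MSA := by
  intro N s _
  refine ⟨16 * (s + 1) * 2 ^ s, by positivity, ?_⟩
  intro y b δ W hn hW hδ _ hyb _ c
  have hy : y ≠ 0 := by
    intro h
    rw [h] at hn
    simp [nsq] at hn
  have hO : 0 ≤ trO b W := by
    unfold trO
    refine Finset.sum_nonneg fun I _ => ?_
    split_ifs
    · exact diag_nn W hW.psd I
    · exact le_rfl
  have hF : 0 ≤ Pool.Agent.H92.EHD.trF W := by
    unfold Pool.Agent.H92.EHD.trF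
    exact Finset.sum_nonneg fun I _ => diag_nn W hW.psd I
  set F := Pool.Agent.H92.EHD.trF W with hFd
  set O := trO b W with hOd
  set f : ℝ := ((s + 1).factorial : ℝ) with hf
  have hf0 : 0 < f := by
    rw [hf]
    exact_mod_cast Nat.factorial_pos (s + 1)
  have hfc : ((s + 1).factorial : ℂ) = (f : ℂ) := by
    rw [hf]
    push_cast
    rfl
  set q : ℝ := ‖y b‖ ^ 2 + δ ^ 2 with hq
  have hq0 : 0 < q := by positivity
  have hq2 : q ≤ 2 * δ ^ 2 := by
    have : ‖y b‖ ^ 2 ≤ δ ^ 2 := pow_le_pow_left₀ (norm_nonneg _) hyb 2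
    linarith
  set n : ℝ := ∑ K, ‖∑ I, c I * DD y (s + 1) I K‖ ^ 2 with hnd
  set B : ℝ := ∑ K : Fin s → Fin N,
    ‖∑ I, c I * DD y (s + 1) I (Fin.cons (α := fun _ => Fin N) b K)‖ ^ 2 with hBd
  have hn0 : 0 ≤ n := Finset.sum_nonneg fun K _ => by positivity
  have hB0 : 0 ≤ B := Finset.sum_nonneg fun K _ => by positivity
  have hOm : (n : ℂ) = (((s + 1).factorial : ℂ) ^ 2 * 2 ^ (s + 1)) *
      ∑ I, ∑ J, c I * conj (c J) * om N (s + 1) y I J := om_len hW9 hy hn (s + 1) c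
  have hPi : (B : ℂ) = (((s + 1).factorial : ℂ) ^ 2 * 2 ^ s) * ∑ I, ∑ J, c I * conj (c J) *
        wedge (om N s y) (fun a a' => PJ y a b * conj (PJ y a' b)) I J :=
    wedge_pi hW9 hy hn b s c
  have hWc : ((s + 1).factorial : ℂ) ^ 2 * ∑ I, ∑ J, c I * conj (c J) * W I J ≤
      ((2 * O * n + 2 * ((s + 1) * F * B) : ℝ) : ℂ) := bound_W b W hW c
  rw [hfc] at hOm hPi hWc
  set Om : ℂ := ∑ I, ∑ J, c I * conj (c J) * om N (s + 1) y I J with hOmd
  set Pi : ℂ := ∑ I, ∑ J, c I * conj (c J) *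
        wedge (om N s y) (fun a a' => PJ y a b * conj (PJ y a' b)) I J with hPid
  set Wc : ℂ := ∑ I, ∑ J, c I * conj (c J) * W I J with hWcd
  set α : ℝ := δ ^ 2 / (2 * q ^ 2) with hα
  set β : ℝ := δ ^ 2 / q with hβ
  have hβ0 : 0 ≤ β := by positivity
  have hα0 : 0 ≤ α := by positivity
  have hw : ∀ I J, wedge (om N s y)
      (hessR (fun z => (1 / 2) * Real.log (‖z b‖ ^ 2 + δ ^ 2 * nsq z)) y) I J =
      (α : ℂ) * wedge (om N s y) (fun a a' => PJ y a b * conj (PJ y a' b)) I J +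
      (β : ℂ) * om N (s + 1) y I J := by
    intro I J
    show _ = (α : ℂ) * wedge (om N s y) (fun a a' => PJ y a b * conj (PJ y a' b)) I J +
      (β : ℂ) * wedge (om N s y) (hessR ell y) I J
    unfold wedge
    simp only [hess_b hW7 hW9 hy hn b δ hδ]
    simp only [Finset.mul_sum, ← Finset.sum_add_distrib]
    refine Finset.sum_congr rfl fun a _ => Finset.sum_congr rfl fun a' _ => ?_
    ring
  have hS : ∑ I, ∑ J, c I * conj (c J) *
      (((16 * (s + 1) * 2 ^ s * δ ^ 2 * F : ℝ) : ℂ) *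
        wedge (om N s y)
          (hessR (fun z => (1 / 2) * Real.log (‖z b‖ ^ 2 + δ ^ 2 * nsq z)) y) I J +
      ((16 * (s + 1) * 2 ^ s * O : ℝ) : ℂ) * om N (s + 1) y I J - W I J) =
      ((16 * (s + 1) * 2 ^ s * δ ^ 2 * F : ℝ) : ℂ) * ((α : ℂ) * Pi + (β : ℂ) * Om) +
        ((16 * (s + 1) * 2 ^ s * O : ℝ) : ℂ) * Om - Wc := by
    rw [hPid, hOmd, hWcd]
    simp only [hw, Finset.mul_sum, ← Finset.sum_add_distrib, ← Finset.sum_sub_distrib]
    refine Finset.sum_congr rfl fun I _ => Finset.sum_congr rfl fun J _ => ?_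
    ring
  show 0 ≤ ∑ I, ∑ J, c I * conj (c J) *
      (((16 * (s + 1) * 2 ^ s * δ ^ 2 * F : ℝ) : ℂ) *
        wedge (om N s y)
          (hessR (fun z => (1 / 2) * Real.log (‖z b‖ ^ 2 + δ ^ 2 * nsq z)) y) I J +
      ((16 * (s + 1) * 2 ^ s * O : ℝ) : ℂ) * om N (s + 1) y I J - W I J)
  rw [hS]
  have hmain : (0 : ℂ) ≤ ((f ^ 2 : ℝ) : ℂ) *
      (((16 * (s + 1) * 2 ^ s * δ ^ 2 * F : ℝ) : ℂ) * ((α : ℂ) * Pi + (β : ℂ) * Om) +
        ((16 * (s + 1) * 2 ^ s * O : ℝ) : ℂ) * Om - Wc) := by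
    have e0 : (0 : ℝ) ≤ 16 * (s + 1) * δ ^ 2 * F * α * B +
        8 * (s + 1) * δ ^ 2 * F * β * n + 8 * (s + 1) * O * n -
        (2 * O * n + 2 * ((s + 1) * F * B)) := by
      have g1 : 1 / 8 ≤ δ ^ 2 * α := by
        rw [hα, mul_div_assoc', div_le_div_iff₀ (by norm_num) (by positivity)]
        have g2 : q ^ 2 ≤ (2 * δ ^ 2) ^ 2 := pow_le_pow_left₀ hq0.le hq2 2
        nlinarith
      have g3 : 2 * ((s + 1) * F * B) ≤ 16 * (s + 1) * δ ^ 2 * F * α * B := by
        have g4 : 0 ≤ 16 * ((s + 1) * F * B) := by positivity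
        have g5 := mul_le_mul_of_nonneg_left g1 g4
        linarith
      have g6 : 2 * O * n ≤ 8 * (s + 1) * O * n := by
        have g7 : 0 ≤ O * n := by positivity
        have g8 : (0 : ℝ) ≤ s := Nat.cast_nonneg s
        nlinarith
      have g9 : 0 ≤ 8 * (s + 1) * δ ^ 2 * F * β * n := by positivity
      linarith
    have e1 : (0 : ℂ) ≤ ((16 * (s + 1) * δ ^ 2 * F * α * B +
        8 * (s + 1) * δ ^ 2 * F * β * n + 8 * (s + 1) * O * n -
        (2 * O * n + 2 * ((s + 1) * F * B)) : ℝ) : ℂ) := by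
      rw [← Complex.ofReal_zero, Complex.real_le_real]
      exact e0
    have e2 := add_nonneg e1 (sub_nonneg.2 hWc)
    refine le_of_le_of_eq e2 ?_
    have e3 : (16 * (s + 1) * δ ^ 2 * F * α * (B : ℂ) : ℂ) =
        16 * (s + 1) * 2 ^ s * δ ^ 2 * F * α * ((f : ℂ) ^ 2 * Pi) := by
      rw [hPi]
      ring
    have e4 : ∀ x : ℂ, 8 * x * (n : ℂ) = 16 * 2 ^ s * x * ((f : ℂ) ^ 2 * Om) := by
      intro x
      rw [hOm, pow_succ]
      ring
    have e5 := e4 ((s + 1) * δ ^ 2 * F * β)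
    have e6 := e4 ((s + 1) * O)
    push_cast
    linear_combination e3 + e5 + e6
  have hinv : (0 : ℂ) ≤ (((f ^ 2)⁻¹ : ℝ) : ℂ) := by
    rw [← Complex.ofReal_zero, Complex.real_le_real]
    positivity
  refine le_of_le_of_eq (mul_nonneg hinv hmain) ?_
  rw [← mul_assoc, ← Complex.ofReal_mul, inv_mul_cancel₀ (by positivity), Complex.ofReal_one,
    one_mul]

end

end Pool.Agent.H29.EM
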